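import Pool.Agent.Helper43.AX.St

set_option autoImplicit false

namespace Pool.Agent.Helper53.AX

open Pool.Agent.Helper43.AX

private lemma conj_closure {G : Type} [Group G] (S : Set G) (g : G)
    (h1 : ∀ y ∈ S, g * y * g⁻¹ ∈ Subgroup.closure S) :
    ∀ h ∈ Subgroup.closure S, g * h * g⁻¹ ∈ Subgroup.closure S := by
  intro h hh
  induction hh using Subgroup.closure_induction with
  | mem y hy => exact h1 y hy
  | one => simpa using Subgroup.one_mem _
  | mul y z _ _ hy hz =>
      have : g * (y * z) * g⁻¹ = (g * y * g⁻¹) * (g * z * g⁻¹) := by group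
      rw [this]; exact Subgroup.mul_mem _ hy hz
  | inv y _ hy =>
      have : g * y⁻¹ * g⁻¹ = (g * y * g⁻¹)⁻¹ := by group
      rw [this]; exact Subgroup.inv_mem _ hy

private lemma normal_of {G : Type} [Group G] (H : Subgroup G) (T : Set G)
    (hT : Subgroup.closure T = ⊤)
    (h : ∀ g ∈ T, (∀ y ∈ H, g * y * g⁻¹ ∈ H) ∧ (∀ y ∈ H, g⁻¹ * y * g ∈ H)) : H.Normal := by
  have key : ∀ g ∈ Subgroup.closure T, (∀ y ∈ H, g * y * g⁻¹ ∈ H) ∧ (∀ y ∈ H, g⁻¹ * y * g ∈ H) := by
    intro g hg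
    induction hg using Subgroup.closure_induction with
    | mem y hy => exact h y hy
    | one => exact ⟨fun y hy => by simpa using hy, fun y hy => by simpa using hy⟩
    | mul y z _ _ hy hz =>
        refine ⟨fun w hw => ?_, fun w hw => ?_⟩
        · have : (y * z) * w * (y * z)⁻¹ = y * (z * w * z⁻¹) * y⁻¹ := by group
          rw [this]; exact hy.1 _ (hz.1 _ hw)
        · have : (y * z)⁻¹ * w * (y * z) = z⁻¹ * (y⁻¹ * w * y) * z := by group
          rw [this]; exact hz.2 _ (hy.2 _ hw)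
    | inv y _ hy =>
        refine ⟨fun w hw => ?_, fun w hw => ?_⟩
        · rw [inv_inv]; exact hy.2 w hw
        · rw [inv_inv]; exact hy.1 w hw
  exact ⟨fun n hn g => (key g (by rw [hT]; trivial)).1 n hn⟩

theorem hHN (hVC : StVC) : StHN := by
  intro p q G _ a b t l L _ x E σ hC hcl
  obtain ⟨v1, -, -, -, -⟩ := hVC p q G a b t l L x E σ hC
  have hR := hC.rel
  have hD := hC.rd
  set H := Hs a b E with hH
  have hE : ∀ c, E c ∈ H := fun c => Subgroup.subset_closure (Or.inl ⟨c, rfl⟩)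
  have hF : ∀ c, F1 a b E c ∈ H := fun c => Subgroup.subset_closure (Or.inr ⟨c, rfl⟩)
  have ha : a ∈ H := by rw [← hD.one]; exact hE 1
  have hb : b ∈ H := by
    have h1 : F1 a b E 1 = b := by
      unfold F1
      rw [hD.one]
      have h2 : a * b * a * a = b * (a * b * a) := by
        calc a * b * a * a = (b * a * b) * a := by rw [hR.braid]
          _ = b * (a * b * a) := by group
      rw [h2]; group
    rw [← h1]; exact hF 1
  have hv : a * b * a ∈ H := H.mul_mem (H.mul_mem ha hb) ha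
  have lv : l * (a * b * a) = (a * b * a) * l := by
    calc l * (a * b * a) = (l * a) * b * a := by group
      _ = a * (l * b) * a := by rw [hR.la]; group
      _ = a * b * (l * a) := by rw [hR.lb]; group
      _ = (a * b * a) * l := by rw [hR.la]; group
  -- conjugation by `t`
  have t1 : ∀ c, t * E c * t⁻¹ = E (((x⁻¹ : Lˣ) : L) * c) := by
    intro c
    have h1 := hD.tE (((x⁻¹ : Lˣ) : L) * c)
    rw [← mul_assoc, Units.mul_inv, one_mul] at h1
    rw [← h1]; group
  have t2 : ∀ c, t * F1 a b E c * t⁻¹ = F1 a b E (((x ^ (q ^ p) : Lˣ) : L) * c) := by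
    intro c
    have h1 := v1 (((x ^ (q ^ p) : Lˣ) : L) * c)
    have h2 : ((x⁻¹ ^ (q ^ p) : Lˣ) : L) * (((x ^ (q ^ p) : Lˣ) : L) * c) = c := by
      rw [← mul_assoc, ← Units.val_mul, inv_pow, inv_mul_cancel, Units.val_one, one_mul]
    rw [h2] at h1
    rw [← h1]; group
  have l1 : ∀ c, l * E c * l⁻¹ = E (σ.symm c) := by
    intro c
    have h1 := hD.lE (σ.symm c)
    rw [RingEquiv.apply_symm_apply] at h1
    rw [← h1]; group
  have lv' : l⁻¹ * (a * b * a) = (a * b * a) * l⁻¹ := by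
    have : l⁻¹ * (l * (a * b * a)) * l⁻¹ = l⁻¹ * ((a * b * a) * l) * l⁻¹ := by rw [lv]
    calc l⁻¹ * (a * b * a) = l⁻¹ * ((a * b * a) * l) * l⁻¹ := by group
      _ = l⁻¹ * (l * (a * b * a)) * l⁻¹ := this.symm
      _ = (a * b * a) * l⁻¹ := by group
  have l2 : ∀ c, l⁻¹ * F1 a b E c * l = F1 a b E (σ c) := by
    intro c
    unfold F1
    rw [← hD.lE c]
    calc l⁻¹ * (a * b * a * E c * (a * b * a)⁻¹) * l
        = (l⁻¹ * (a * b * a)) * E c * ((l⁻¹ * (a * b * a))⁻¹) := by group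
      _ = ((a * b * a) * l⁻¹) * E c * (((a * b * a) * l⁻¹)⁻¹) := by rw [lv']
      _ = a * b * a * (l⁻¹ * E c * l) * (a * b * a)⁻¹ := by group
  have l3 : ∀ c, l * F1 a b E c * l⁻¹ = F1 a b E (σ.symm c) := by
    intro c
    have h1 := l2 (σ.symm c)
    rw [RingEquiv.apply_symm_apply] at h1
    rw [← h1]; group
  have hn : H.Normal := by
    apply normal_of H _ hcl
    intro g hg
    simp only [Set.mem_insert_iff, Set.mem_singleton_iff] at hg
    have hin : ∀ g ∈ H, (∀ y ∈ H, g * y * g⁻¹ ∈ H) ∧ (∀ y ∈ H, g⁻¹ * y * g ∈ H) := fun g hg =>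
      ⟨fun y hy => H.mul_mem (H.mul_mem hg hy) (H.inv_mem hg),
       fun y hy => H.mul_mem (H.mul_mem (H.inv_mem hg) hy) hg⟩
    rcases hg with rfl | rfl | rfl | rfl
    · exact hin _ ha
    · exact hin _ hb
    · refine ⟨?_, ?_⟩
      · apply conj_closure
        rintro y (⟨c, rfl⟩ | ⟨c, rfl⟩)
        · rw [t1]; exact hE _
        · rw [t2]; exact hF _
      · have := conj_closure (Set.range E ∪ Set.range (F1 a b E)) g⁻¹ (by
          rintro y (⟨c, rfl⟩ | ⟨c, rfl⟩)
          · rw [inv_inv, hD.tE]; exact hE _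
          · rw [inv_inv, v1]; exact hF _)
        intro y hy
        have h1 := this y hy
        rw [inv_inv] at h1
        exact h1
    · refine ⟨?_, ?_⟩
      · apply conj_closure
        rintro y (⟨c, rfl⟩ | ⟨c, rfl⟩)
        · rw [l1]; exact hE _
        · rw [l3]; exact hF _
      · have := conj_closure (Set.range E ∪ Set.range (F1 a b E)) g⁻¹ (by
          rintro y (⟨c, rfl⟩ | ⟨c, rfl⟩)
          · rw [inv_inv, hD.lE]; exact hE _
          · rw [inv_inv, l2]; exact hF _)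
        intro y hy
        have h1 := this y hy
        rw [inv_inv] at h1
        exact h1
  refine ⟨hn, ha, hb, ?_⟩
  have h1 : t⁻¹ * (a * b * a) * t ∈ H := by
    have := hn.conj_mem _ hv t⁻¹
    rw [inv_inv] at this
    exact this
  have h2 : (a * b * a)⁻¹ * t⁻¹ * (a * b * a) = t ^ (q ^ p) := by
    have h3 := hR.vt
    calc (a * b * a)⁻¹ * t⁻¹ * (a * b * a) = ((a * b * a)⁻¹ * t * (a * b * a))⁻¹ := by group
      _ = t ^ (q ^ p) := by rw [h3, inv_inv]
  have h3 : t ^ (q ^ p + 1) = (a * b * a)⁻¹ * (t⁻¹ * (a * b * a) * t) := by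
    rw [pow_succ, ← h2]; group
  rw [h3]
  exact H.mul_mem (H.inv_mem hv) h1

end Pool.Agent.Helper53.AX
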